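import Pool.Agent.Helper74.HG.GoalsG

/-!
# Project HG, part 3: goal LIG

A copy of `Pool.Agent.Helper59.HG.LI` without the condition on the lengths of the words.
-/

set_option autoImplicit false

namespace Pool.Agent.Helper30.HG.LIG

open MvPolynomial
open Pool.Agent.Helper74.HG

/-- sums of signed words -/
def RR {σ : Type} (f : MvPolynomial σ ℤ) : Prop :=
  ∃ L : List (ℤ × List σ), (∀ p ∈ L, p.1 = 1 ∨ p.1 = -1) ∧ f = (L.map wp).sum

lemma zero {σ : Type} : RR (0 : MvPolynomial σ ℤ) :=
  ⟨[], fun p hp => absurd hp List.not_mem_nil, by simp⟩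

lemma add {σ : Type} (f g : MvPolynomial σ ℤ) (hf : RR f) (hg : RR g) : RR (f + g) := by
  obtain ⟨L, h1, h2⟩ := hf
  obtain ⟨L', h3, h4⟩ := hg
  refine ⟨L ++ L', ?_, ?_⟩
  · intro p hp
    rcases List.mem_append.1 hp with h | h
    · exact h1 p h
    · exact h3 p h
  · rw [List.map_append, List.sum_append, h2, h4]

lemma word {σ : Type} (u : σ →₀ ℕ) :
    ((Finsupp.toMultiset u).toList.map (X : σ → MvPolynomial σ ℤ)).prod = monomial u 1 := by
  rw [← Multiset.prod_coe, ← Multiset.map_coe, Multiset.coe_toList, monomial_eq, C_1, one_mul]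
  rw [Finsupp.toMultiset_map, Finsupp.prod_toMultiset, Finsupp.prod_mapDomain_index]
  · exact fun a => pow_zero a
  · exact fun a m n => pow_add a m n

lemma one_word {σ : Type} (u : σ →₀ ℕ) (ε : ℤ) (hε : ε = 1 ∨ ε = -1) :
    RR (monomial u ε : MvPolynomial σ ℤ) := by
  refine ⟨[(ε, (Finsupp.toMultiset u).toList)], ?_, ?_⟩
  · intro p hp
    rw [List.mem_singleton] at hp
    rw [hp]
    exact hε
  · rw [List.map_singleton, List.sum_singleton]
    show _ = C ε * ((Finsupp.toMultiset u).toList.map X).prod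
    rw [word, C_mul_monomial, mul_one]

lemma mono {σ : Type} (u : σ →₀ ℕ) (c : ℤ) : RR (monomial u c : MvPolynomial σ ℤ) := by
  induction c using Int.induction_on with
  | zero =>
    rw [map_zero]
    exact zero
  | succ i ih =>
    rw [map_add]
    exact add _ _ ih (one_word u 1 (Or.inl rfl))
  | pred i ih =>
    rw [sub_eq_add_neg, map_add]
    exact add _ _ ih (one_word u (-1) (Or.inr rfl))

theorem t : Pool.Agent.Helper74.HG.LIG := by
  intro σ f
  have h : RR (∑ u ∈ f.support, monomial u (coeff u f)) :=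
    Finset.sum_induction _ RR add zero fun u _ => mono u _
  rw [support_sum_monomial_coeff] at h
  exact h

end Pool.Agent.Helper30.HG.LIG
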